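import Mathlib
import Pool.Agent.D0H11.GF.Stm

/-! Project GF, module L2: the mean square over a cube. -/

open Finset MeasureTheory Filter

namespace Pool.Agent.D0H81.GF

open Pool.Agent.D0H11.GF

theorem ct_meas (c : ℕ → ℝ) : Measurable (ct c) := by
  unfold ct
  refine Measurable.ite measurableSet_Ici ?_ measurable_const
  exact ((measurable_from_nat (f := c)).comp Nat.measurable_floor).sub_const 1

theorem one_le_log {Y : ℝ} (hY : 0 ≤ Y) : 1 ≤ Real.log (Y + 3) := by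
  rw [Real.le_log_iff_exp_le (by linarith)]
  have := Real.exp_one_lt_d9
  linarith

theorem ct_bd {c : ℕ → ℝ} {E : ℕ} (hgr : Gr E c) {Y y : ℝ} (hY : 0 ≤ Y) (hy : |y| ≤ Y) :
    |ct c y| ≤ 2 * Real.log (Y + 3) ^ E := by
  have h1 := one_le_log hY
  have h2 : 1 ≤ Real.log (Y + 3) ^ E := one_le_pow₀ h1
  unfold ct
  split_ifs with h
  · have h3 : (⌊y⌋₊ : ℝ) ≤ Y := (Nat.floor_le h).trans ((le_abs_self y).trans hy)
    have h4 := hgr ⌊y⌋₊
    have h5 : Real.log ((⌊y⌋₊ : ℝ) + 3) ^ E ≤ Real.log (Y + 3) ^ E := by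
      apply pow_le_pow_left₀
      · exact Real.log_nonneg (by have : (0:ℝ) ≤ ⌊y⌋₊ := Nat.cast_nonneg _; linarith)
      · apply Real.log_le_log (by positivity)
        linarith
    have h6 : |c ⌊y⌋₊ - 1| ≤ |c ⌊y⌋₊| + 1 := by
      have := abs_sub (c ⌊y⌋₊) 1
      rw [abs_one] at this
      exact this
    linarith
  · rw [abs_zero]
    linarith

theorem vol_bx (d : ℕ) {K : ℝ} (hK : 0 ≤ K) : (volume : Measure (Fin d → ℝ)).real (bx d K) =
    (2 * K) ^ d := by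
  unfold bx Measure.real
  rw [Real.volume_Icc_pi_toReal]
  · rw [prod_const, card_univ, Fintype.card_fin]
    congr 1
    ring
  · intro i
    simp only
    linarith

theorem arg_bd {d : ℕ} {K Z : ℝ} (hK : 0 ≤ K) (g : ℝ) (v : Fin d → ℝ) (hg : |g| ≤ Z)
    (hv : ∀ k, |v k| ≤ Z) (b : Fin d → ℝ) (hb : b ∈ bx d K) :
    |g + ∑ k, b k * v k| ≤ Z * (1 + d * K) := by
  have h1 : ∀ k, |b k * v k| ≤ K * Z := by
    intro k
    rw [abs_mul]
    have hbk : |b k| ≤ K := abs_le.mpr ⟨hb.1 k, hb.2 k⟩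
    exact mul_le_mul hbk (hv k) (abs_nonneg _) hK
  have h2 : |∑ k, b k * v k| ≤ d * (K * Z) := by
    refine (abs_sum_le_sum_abs _ _).trans ((sum_le_sum fun k _ => h1 k).trans (le_of_eq ?_))
    rw [sum_const, card_univ, Fintype.card_fin, nsmul_eq_mul]
  calc |g + ∑ k, b k * v k| ≤ |g| + |∑ k, b k * v k| := abs_add_le _ _
    _ ≤ Z + d * (K * Z) := add_le_add hg h2
    _ = _ := by ring

theorem arg_meas (c : ℕ → ℝ) {d : ℕ} (g : ℝ) (v : Fin d → ℝ) :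
    Measurable (fun b : Fin d → ℝ => ct c (g + ∑ k, b k * v k)) := by
  apply (ct_meas c).comp
  apply Measurable.const_add
  apply Finset.measurable_fun_sum
  intro k _
  exact (measurable_pi_apply k).mul_const _

theorem bx_compact (d : ℕ) (K : ℝ) : IsCompact (bx d K) := by
  unfold bx
  exact isCompact_Icc

theorem prod_int {c : ℕ → ℝ} {d : ℕ} {K L : ℝ} (g g' : ℝ) (v v' : Fin d → ℝ)
    (h : ∀ b ∈ bx d K, |ct c (g + ∑ k, b k * v k)| ≤ L ∧ |ct c (g' + ∑ k, b k * v' k)| ≤ L) :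
    IntegrableOn (fun b : Fin d → ℝ => ct c (g + ∑ k, b k * v k) * ct c (g' + ∑ k, b k * v' k))
      (bx d K) ∧ (0 ≤ K → |∫ b in bx d K, ct c (g + ∑ k, b k * v k) *
        ct c (g' + ∑ k, b k * v' k)| ≤ (2 * K) ^ d * L ^ 2) := by
  have hfin : (volume : Measure (Fin d → ℝ)) (bx d K) < ⊤ := (bx_compact d K).measure_lt_top
  have hb : ∀ b ∈ bx d K, ‖ct c (g + ∑ k, b k * v k) * ct c (g' + ∑ k, b k * v' k)‖ ≤ L ^ 2 := by
    intro b hb
    rw [norm_mul, sq]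
    exact mul_le_mul (h b hb).1 (h b hb).2 (norm_nonneg _) ((abs_nonneg _).trans (h b hb).1)
  constructor
  · apply Measure.integrableOn_of_bounded (M := L ^ 2) hfin.ne
      ((arg_meas c g v).mul (arg_meas c g' v')).aestronglyMeasurable
    exact (ae_restrict_iff' (bx_compact d K).isClosed.measurableSet).mpr (ae_of_all _ hb)
  · intro hK
    have h1 := norm_setIntegral_le_of_norm_le_const (μ := volume) hfin hb
    rw [vol_bx d hK, Real.norm_eq_abs] at h1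
    linarith

open Classical in
/-- the bound for one `N` -/
theorem oneN (hPD : S_PAIRD) {d : ℕ} {ι : Type} {X : Fam d ι} {E : ℕ} (hX : Ok X E)
    {c : ℕ → ℝ} (hgr : Gr E c) (K : ℕ) (hK : 1 ≤ K) (D N : ℕ) (hN : 2 ≤ N) (e : ℝ) (he : 0 ≤ e)
    (Y : ℝ) (hY : Y = (E + 1) * (1 + d * K) * (N + 1))
    (hI : ∀ y₁ y₂ : ℝ, -Y ≤ y₁ → y₁ ≤ y₂ → y₂ ≤ Y → |∫ y in y₁..y₂, ct c y| ≤ e) :
    ∫ b in bx d K, ∑ n ∈ Icc 1 N, Sm X c n b ^ 2 ≤
      (∑ n ∈ Icc 1 N, ((((X.R n ×ˢ X.R n).filter fun p => ∀ i j : Fin d,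
      |X.v n p.1 i * X.v n p.2 j - X.v n p.1 j * X.v n p.2 i| ≤
        (N : ℝ) ^ 2 / Real.log N ^ D).card : ℕ) : ℝ)) *
        ((Real.log (N + 3) ^ E) ^ 2 * ((2 * K) ^ d * (2 * Real.log (Y + 3) ^ E) ^ 2)) +
      (∑ n ∈ Icc 1 N, ((X.R n).card : ℝ) ^ 2) *
        ((Real.log (N + 3) ^ E) ^ 2 * ((2 * K) ^ (d - 2) * (2 * Y * (2 * Real.log (Y + 3) ^ E) * e) *
          (Real.log N ^ D / (N : ℝ) ^ 2))) := by
  have hKr : (1 : ℝ) ≤ K := by exact_mod_cast hK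
  have hNr : (2 : ℝ) ≤ N := by exact_mod_cast hN
  have hE0 : (0 : ℝ) ≤ E := Nat.cast_nonneg _
  have hd0 : (0 : ℝ) ≤ d := Nat.cast_nonneg _
  have hY0 : 0 < Y := by rw [hY]; positivity
  set L := 2 * Real.log (Y + 3) ^ E with hL
  have hlog1 := one_le_log hY0.le
  have hL0 : 0 ≤ L := by positivity
  have hlogN : 0 < Real.log N := Real.log_pos (by linarith)
  have hlog3 : 0 ≤ Real.log ((N : ℝ) + 3) := Real.log_nonneg (by linarith)
  have hbd : Bd (ct c) Y L e := ⟨ct_meas c, hY0, hL0, he, fun y hy => ct_bd hgr hY0.le hy, hI⟩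
  -- arguments
  have harg : ∀ n ∈ Icc 1 N, ∀ x ∈ X.R n, ∀ b ∈ bx d K, |X.g n x + ∑ k, b k * X.v n x k| ≤ Y := by
    intro n hn x hx b hb
    rw [mem_Icc] at hn
    have hnN : (n : ℝ) ≤ N := by exact_mod_cast hn.2
    have hn0 : (0 : ℝ) ≤ n := Nat.cast_nonneg _
    have h1 := arg_bd (d := d) (K := (K : ℝ)) (Z := E * n) (by linarith) (X.g n x) (X.v n x)
      (hX.hg n x hx) (hX.hv n x hx) b hb
    refine h1.trans ?_
    rw [hY]
    have h2 : (E : ℝ) * n ≤ (E + 1) * (N + 1) := by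
      apply mul_le_mul <;> linarith
    have h3 : (0 : ℝ) ≤ 1 + d * K := by positivity
    nlinarith [mul_le_mul_of_nonneg_right h2 h3]
  have hbdd : ∀ n ∈ Icc 1 N, ∀ x ∈ X.R n, ∀ b ∈ bx d K,
      |ct c (X.g n x + ∑ k, b k * X.v n x k)| ≤ L :=
    fun n hn x hx b hb => ct_bd hgr hY0.le (harg n hn x hx b hb)
  have hint : ∀ n ∈ Icc 1 N, ∀ p ∈ X.R n ×ˢ X.R n, IntegrableOn (fun b : Fin d → ℝ =>
      ct c (X.g n p.1 + ∑ k, b k * X.v n p.1 k) * ct c (X.g n p.2 + ∑ k, b k * X.v n p.2 k))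
      (bx d K) := by
    intro n hn p hp
    rw [mem_product] at hp
    exact (prod_int _ _ _ _ fun b hb => ⟨hbdd n hn p.1 hp.1 b hb, hbdd n hn p.2 hp.2 b hb⟩).1
  -- expansion
  have hexp : ∀ n b, Sm X c n b ^ 2 = ∑ p ∈ X.R n ×ˢ X.R n, (X.w n p.1 * X.w n p.2) *
      (ct c (X.g n p.1 + ∑ k, b k * X.v n p.1 k) *
        ct c (X.g n p.2 + ∑ k, b k * X.v n p.2 k)) := by
    intro n b
    unfold Sm
    rw [sq, sum_mul_sum, sum_product]
    apply sum_congr rfl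
    intro x _
    apply sum_congr rfl
    intro y _
    ring
  have hI2 : ∫ b in bx d K, ∑ n ∈ Icc 1 N, Sm X c n b ^ 2 =
      ∑ n ∈ Icc 1 N, ∑ p ∈ X.R n ×ˢ X.R n, (X.w n p.1 * X.w n p.2) *
      ∫ b in bx d K, (ct c (X.g n p.1 + ∑ k, b k * X.v n p.1 k) *
        ct c (X.g n p.2 + ∑ k, b k * X.v n p.2 k)) := by
    simp_rw [hexp]
    rw [integral_finsetSum]
    · apply sum_congr rfl
      intro n hn
      rw [integral_finsetSum]
      · apply sum_congr rfl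
        intro p _
        rw [integral_const_mul]
      · intro p hp
        exact (hint n hn p hp).const_mul _
    · intro n hn
      apply integrable_finsetSum
      intro p hp
      exact (hint n hn p hp).const_mul _
  rw [hI2, sum_mul, sum_mul, ← sum_add_distrib]
  apply sum_le_sum
  intro n hn
  have hn' := mem_Icc.mp hn
  have hnN : (n : ℝ) ≤ N := by exact_mod_cast hn'.2
  have hW : ∀ x ∈ X.R n, |X.w n x| ≤ Real.log (N + 3) ^ E := by
    intro x hx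
    refine (hX.hw n x hx).trans ?_
    apply pow_le_pow_left₀
    · exact Real.log_nonneg (by have : (0:ℝ) ≤ n := Nat.cast_nonneg _; linarith)
    · apply Real.log_le_log (by positivity)
      linarith
  set B1 := (Real.log (N + 3) ^ E) ^ 2 * ((2 * (K : ℝ)) ^ d * L ^ 2) with hB1
  set B2 := (Real.log (N + 3) ^ E) ^ 2 * ((2 * (K : ℝ)) ^ (d - 2) * (2 * Y * L * e) *
          (Real.log N ^ D / (N : ℝ) ^ 2)) with hB2
  have hB20 : 0 ≤ B2 := by positivity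
  have hB10 : 0 ≤ B1 := by positivity
  have hterm : ∀ p ∈ X.R n ×ˢ X.R n, (X.w n p.1 * X.w n p.2) *
      ∫ b in bx d K, (ct c (X.g n p.1 + ∑ k, b k * X.v n p.1 k) *
        ct c (X.g n p.2 + ∑ k, b k * X.v n p.2 k)) ≤
      (if (∀ i j : Fin d, |X.v n p.1 i * X.v n p.2 j - X.v n p.1 j * X.v n p.2 i| ≤
        (N : ℝ) ^ 2 / Real.log N ^ D) then B1 else 0) + B2 := by
    intro p hp
    rw [mem_product] at hp
    set I := ∫ b in bx d K, (ct c (X.g n p.1 + ∑ k, b k * X.v n p.1 k) *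
        ct c (X.g n p.2 + ∑ k, b k * X.v n p.2 k)) with hIdef
    have hww : |X.w n p.1 * X.w n p.2| ≤ (Real.log (N + 3) ^ E) ^ 2 := by
      rw [abs_mul, sq]
      exact mul_le_mul (hW p.1 hp.1) (hW p.2 hp.2) (abs_nonneg _)
        ((abs_nonneg _).trans (hW p.1 hp.1))
    have habs : (X.w n p.1 * X.w n p.2) * I ≤ (Real.log (N + 3) ^ E) ^ 2 * |I| := by
      refine (le_abs_self _).trans ?_
      rw [abs_mul]
      exact mul_le_mul_of_nonneg_right hww (abs_nonneg _)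
    split_ifs with hs
    · have h1 : |I| ≤ (2 * (K : ℝ)) ^ d * L ^ 2 :=
        (prod_int _ _ _ _ fun b hb => ⟨hbdd n hn p.1 hp.1 b hb, hbdd n hn p.2 hp.2 b hb⟩).2
          (by linarith)
      have h2 := mul_le_mul_of_nonneg_left h1 (sq_nonneg (Real.log ((N : ℝ) + 3) ^ E))
      linarith
    · push Not at hs
      obtain ⟨i, j, hij⟩ := hs
      have hQ : 0 < (N : ℝ) ^ 2 / Real.log N ^ D := by positivity
      set δ := X.v n p.1 i * X.v n p.2 j - X.v n p.1 j * X.v n p.2 i with hδ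
      have hδ0 : 0 < |δ| := hQ.trans hij
      have hne : i ≠ j := by
        rintro rfl
        rw [hδ, sub_self, abs_zero] at hδ0
        exact lt_irrefl _ hδ0
      have h1 := hPD (ct c) Y L e K hbd (by linarith) d (X.v n p.1) (X.v n p.2) (X.g n p.1)
        (X.g n p.2) (fun b hb => ⟨harg n hn p.1 hp.1 b hb, harg n hn p.2 hp.2 b hb⟩) i j hne
        (abs_pos.mp hδ0)
      have h2 : (2 * (K : ℝ)) ^ (d - 2) * (2 * Y * L * e) / |δ| ≤
          (2 * (K : ℝ)) ^ (d - 2) * (2 * Y * L * e) * (Real.log N ^ D / (N : ℝ) ^ 2) := by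
        rw [div_eq_mul_inv]
        apply mul_le_mul_of_nonneg_left _ (by positivity)
        rw [← inv_div]
        exact inv_anti₀ hQ hij.le
      have h3 := mul_le_mul_of_nonneg_left (h1.trans h2) (sq_nonneg (Real.log ((N : ℝ) + 3) ^ E))
      linarith
  refine (sum_le_sum hterm).trans (le_of_eq ?_)
  rw [sum_add_distrib, ← sum_filter, sum_const, sum_const, nsmul_eq_mul, nsmul_eq_mul,
    card_product]
  push_cast
  ring

theorem t_L2 : S_INT → S_PAIRD → S_L2 := by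
  classical
  intro hINT hPD d ι X E hX c hmean hgr K A hK
  have hKr : (1 : ℝ) ≤ K := by exact_mod_cast hK
  obtain ⟨D, hD⟩ := hX.hM (A + 4 * E + 1)
  set c0 : ℝ := (E + 1) * (1 + d * K) with hc0
  have hE0 : (0 : ℝ) ≤ E := Nat.cast_nonneg _
  have hd0 : (0 : ℝ) ≤ d := Nat.cast_nonneg _
  have hdK : (0 : ℝ) ≤ d * K := by positivity
  have hc01 : 1 ≤ c0 := by
    rw [hc0]
    nlinarith
  have hYt : Tendsto (fun N : ℕ => c0 * ((N : ℝ) + 1)) atTop atTop := by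
    apply Tendsto.const_mul_atTop (by linarith)
    exact tendsto_atTop_add_const_right _ _ tendsto_natCast_atTop_atTop
  have ev1 := hYt.eventually (hINT c E hmean hgr (A + D + 4 * E + 1))
  set C1 : ℝ := 4 * 2 ^ (4 * E) * (2 * K) ^ d with hC1
  set C2 : ℝ := 2 ^ (2 * E) * (2 * K) ^ (d - 2) * 2 * (2 * c0) * (2 * 2 ^ E) * (2 * c0) with hC2
  have hC10 : 0 ≤ C1 := by positivity
  have hC20 : 0 ≤ C2 := by positivity
  have ev2 : ∀ᶠ N : ℕ in atTop, C1 + C2 + 1 ≤ Real.log N :=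
    (Real.tendsto_log_atTop.comp tendsto_natCast_atTop_atTop).eventually_ge_atTop _
  have ev3 : ∀ᶠ N : ℕ in atTop, 2 * c0 + 3 ≤ (N : ℝ) :=
    tendsto_natCast_atTop_atTop.eventually_ge_atTop _
  filter_upwards [ev1, ev2, ev3, hX.hT, hD, eventually_ge_atTop 3] with N h1 h2 h3 h4 h5 h6
  have hNr : (3 : ℝ) ≤ N := by exact_mod_cast h6
  set ℓ := Real.log N with hℓ
  have hℓ1 : 1 ≤ ℓ := by linarith
  have hℓ0 : 0 < ℓ := by linarith
  set Y : ℝ := c0 * ((N : ℝ) + 1) with hY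
  have hYN : (N : ℝ) ≤ Y := by rw [hY]; nlinarith
  have hY2 : Y ≤ 2 * c0 * N := by rw [hY]; nlinarith
  have hY0 : 0 < Y := by linarith
  have hlogY : ℓ ≤ Real.log Y := Real.log_le_log (by linarith) hYN
  set e : ℝ := Y / Real.log Y ^ (A + D + 4 * E + 1) with he
  have he0 : 0 ≤ e := by
    have : 0 < Real.log Y := by linarith
    positivity
  have hmain := oneN hPD hX hgr K hK D N (by omega) e he0 Y (by rw [hY, hc0]) h1
  refine hmain.trans ?_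
  -- simplify the factors
  have hsqN : Real.log ((N : ℝ) ^ 2) = 2 * ℓ := by
    rw [Real.log_pow]
    push_cast
    rfl
  have hW : Real.log ((N : ℝ) + 3) ≤ 2 * ℓ := by
    rw [← hsqN]
    apply Real.log_le_log (by linarith)
    nlinarith
  have hW0 : 0 ≤ Real.log ((N : ℝ) + 3) := Real.log_nonneg (by linarith)
  have hLY : Real.log (Y + 3) ≤ 2 * ℓ := by
    rw [← hsqN]
    apply Real.log_le_log (by linarith)
    nlinarith
  have hLY0 : 0 ≤ Real.log (Y + 3) := Real.log_nonneg (by linarith)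
  have hWE : Real.log ((N : ℝ) + 3) ^ E ≤ (2 * ℓ) ^ E := pow_le_pow_left₀ hW0 hW E
  have hLE : Real.log (Y + 3) ^ E ≤ (2 * ℓ) ^ E := pow_le_pow_left₀ hLY0 hLY E
  have hWE0 : 0 ≤ Real.log ((N : ℝ) + 3) ^ E := pow_nonneg hW0 E
  have hLE0 : 0 ≤ Real.log (Y + 3) ^ E := pow_nonneg hLY0 E
  have he2 : e ≤ 2 * c0 * N / ℓ ^ (A + D + 4 * E + 1) := by
    rw [he]
    apply div_le_div₀ (by positivity) hY2 (by positivity)
    exact pow_le_pow_left₀ hℓ0.le hlogY _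
  have hB1 : (Real.log (N + 3) ^ E) ^ 2 * ((2 * (K : ℝ)) ^ d * (2 * Real.log (Y + 3) ^ E) ^ 2) ≤
      C1 * ℓ ^ (4 * E) := by
    calc _ ≤ ((2 * ℓ) ^ E) ^ 2 * ((2 * (K : ℝ)) ^ d * (2 * (2 * ℓ) ^ E) ^ 2) := by gcongr
      _ = _ := by
        rw [hC1, mul_pow 2 ℓ E, pow_mul' (2 : ℝ) 4 E, pow_mul' ℓ 4 E]
        ring
  have hB2 : (Real.log (N + 3) ^ E) ^ 2 * ((2 * (K : ℝ)) ^ (d - 2) *
      (2 * Y * (2 * Real.log (Y + 3) ^ E) * e) * (Real.log N ^ D / (N : ℝ) ^ 2)) ≤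
      C2 * (ℓ ^ (3 * E + D) / ℓ ^ (A + D + 4 * E + 1)) := by
    calc _ ≤ ((2 * ℓ) ^ E) ^ 2 * ((2 * (K : ℝ)) ^ (d - 2) *
      (2 * (2 * c0 * N) * (2 * (2 * ℓ) ^ E) * (2 * c0 * N / ℓ ^ (A + D + 4 * E + 1))) *
        (ℓ ^ D / (N : ℝ) ^ 2)) := by gcongr
      _ = _ := by
        rw [hC2, mul_pow 2 ℓ E, pow_add ℓ (3 * E) D, pow_mul' ℓ 3 E, pow_mul' (2 : ℝ) 2 E]
        have hN0 : (N : ℝ) ≠ 0 := by positivity
        field_simp
  have hN3 : (0 : ℝ) ≤ (N : ℝ) ^ 3 := by positivity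
  have hT1 : (N : ℝ) ^ 3 / ℓ ^ (A + 4 * E + 1) * (C1 * ℓ ^ (4 * E)) =
      C1 * ((N : ℝ) ^ 3 / ℓ ^ (A + 1)) := by
    have : ℓ ^ (A + 4 * E + 1) = ℓ ^ (4 * E) * ℓ ^ (A + 1) := by rw [← pow_add]; congr 1; ring
    rw [this]
    field_simp
  have hT2 : (N : ℝ) ^ 3 * ℓ ^ E * (C2 * (ℓ ^ (3 * E + D) / ℓ ^ (A + D + 4 * E + 1))) =
      C2 * ((N : ℝ) ^ 3 / ℓ ^ (A + 1)) := by
    have : ℓ ^ (A + D + 4 * E + 1) = ℓ ^ E * ℓ ^ (3 * E + D) * ℓ ^ (A + 1) := by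
      rw [← pow_add, ← pow_add]; congr 1; ring
    rw [this]
    field_simp
  have hcard0 : 0 ≤ ∑ n ∈ Icc 1 N, ((((X.R n ×ˢ X.R n).filter fun p => ∀ i j : Fin d,
      |X.v n p.1 i * X.v n p.2 j - X.v n p.1 j * X.v n p.2 i| ≤
        (N : ℝ) ^ 2 / Real.log N ^ D).card : ℕ) : ℝ) := sum_nonneg fun _ _ => Nat.cast_nonneg _
  have hcard1 : 0 ≤ ∑ n ∈ Icc 1 N, ((X.R n).card : ℝ) ^ 2 := sum_nonneg fun _ _ => sq_nonneg _
  calc _ ≤ (N : ℝ) ^ 3 / ℓ ^ (A + 4 * E + 1) * (C1 * ℓ ^ (4 * E)) +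
        (N : ℝ) ^ 3 * ℓ ^ E * (C2 * (ℓ ^ (3 * E + D) / ℓ ^ (A + D + 4 * E + 1))) := by
        apply add_le_add
        · exact mul_le_mul h5 hB1 (by positivity) (by positivity)
        · exact mul_le_mul h4 hB2 (by positivity) (by positivity)
    _ = (C1 + C2) * ((N : ℝ) ^ 3 / ℓ ^ (A + 1)) := by rw [hT1, hT2]; ring
    _ ≤ ℓ * ((N : ℝ) ^ 3 / ℓ ^ (A + 1)) := by
        apply mul_le_mul_of_nonneg_right _ (by positivity)
        linarith
    _ = (N : ℝ) ^ 3 / ℓ ^ A := by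
        rw [pow_succ ℓ A]
        field_simp

end Pool.Agent.D0H81.GF
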