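import Mathlib
import Pool.Agent.D0H11.GF.Stm

/-! Project GF, module SQ2: pairs of nearly equal squares. -/

open Finset

namespace Pool.Agent.D0H81.GF

open Pool.Agent.D0H11.GF

theorem sum_natAbs (f : ℕ → ℝ) (n : ℕ) :
    ∑ h ∈ Icc (-(n : ℤ)) n, f h.natAbs = f 0 + 2 * ∑ j ∈ Icc 1 n, f j := by
  induction n with
  | zero => simp
  | succ n ih =>
    have e : Icc (-((n + 1 : ℕ) : ℤ)) ((n + 1 : ℕ) : ℤ) =
        insert (-((n + 1 : ℕ) : ℤ)) (insert ((n + 1 : ℕ) : ℤ) (Icc (-(n : ℤ)) n)) := by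
      ext x
      simp only [mem_insert, mem_Icc]
      push_cast
      omega
    rw [e, sum_insert, sum_insert, ih, sum_Icc_succ_top (by omega)]
    · have h1 : (-((n + 1 : ℕ) : ℤ)).natAbs = n + 1 := by omega
      have h2 : (((n + 1 : ℕ) : ℤ)).natAbs = n + 1 := by omega
      rw [h1, h2]
      ring
    · simp only [mem_Icc]
      push_cast
      omega
    · simp only [mem_insert, mem_Icc]
      push_cast
      omega

theorem t_SQ2 : S_SQ2 := by
  refine ⟨16, by norm_num, ?_⟩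
  intro M Δ hM
  have hMr : (2 : ℝ) ≤ M := by exact_mod_cast hM
  -- the factors
  set n := 2 * M with hn
  set T := (Icc (-(n : ℤ)) n ×ˢ Icc (-(n : ℤ)) n).filter
    (fun p : ℤ × ℤ => |p.1 * p.2| ≤ (Δ : ℤ)) with hT
  have h1 : ((Icc (-(M : ℤ)) M ×ˢ Icc (-(M : ℤ)) M).filter
      (fun p : ℤ × ℤ => |p.1 ^ 2 - p.2 ^ 2| ≤ (Δ : ℤ))).card ≤ T.card := by
    apply card_le_card_of_injOn (fun p => (p.1 - p.2, p.1 + p.2))
    · intro p hp
      rw [mem_coe, mem_filter, mem_product, mem_Icc, mem_Icc] at hp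
      rw [mem_coe, hT, mem_filter, mem_product, mem_Icc, mem_Icc]
      refine ⟨⟨⟨?_, ?_⟩, ⟨?_, ?_⟩⟩, ?_⟩
      · simp only [hn]; push_cast; omega
      · simp only [hn]; push_cast; omega
      · simp only [hn]; push_cast; omega
      · simp only [hn]; push_cast; omega
      · have : (p.1 - p.2) * (p.1 + p.2) = p.1 ^ 2 - p.2 ^ 2 := by ring
        simp only [this]
        exact hp.2
    · intro p _ q _ h
      simp only [Prod.mk.injEq] at h
      ext
      · omega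
      · omega
  have h2 : (T.card : ℝ) = ∑ h ∈ Icc (-(n : ℤ)) n,
      (((Icc (-(n : ℤ)) n).filter (fun k => |h * k| ≤ (Δ : ℤ))).card : ℝ) := by
    rw [hT, card_filter, sum_product]
    push_cast
    apply sum_congr rfl
    intro h _
    rw [card_filter]
    push_cast
    rfl
  have h3 : ∀ h ∈ Icc (-(n : ℤ)) n,
      (((Icc (-(n : ℤ)) n).filter (fun k => |h * k| ≤ (Δ : ℤ))).card : ℝ) ≤
      (if h.natAbs = 0 then (4 * M + 1 : ℝ) else 2 * Δ * (1 / (h.natAbs : ℝ)) + 1) := by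
    intro h _
    split_ifs with h0
    · have : (((Icc (-(n : ℤ)) n).filter (fun k => |h * k| ≤ (Δ : ℤ))).card) ≤
          (Icc (-(n : ℤ)) n).card := card_filter_le _ _
      rw [Int.card_Icc] at this
      have h4 : ((n : ℤ) + 1 - -(n : ℤ)).toNat = 4 * M + 1 := by omega
      rw [h4] at this
      exact_mod_cast this
    · have hpos : 0 < h.natAbs := Nat.pos_of_ne_zero h0
      have hsub : ((Icc (-(n : ℤ)) n).filter (fun k => |h * k| ≤ (Δ : ℤ))) ⊆
          Icc (-((Δ / h.natAbs : ℕ) : ℤ)) ((Δ / h.natAbs : ℕ) : ℤ) := by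
        intro k hk
        rw [mem_filter] at hk
        have h5 : h.natAbs * k.natAbs ≤ Δ := by
          have h6 := hk.2
          rw [← Int.natAbs_mul]
          zify
          exact h6
        have h7 : k.natAbs ≤ Δ / h.natAbs := by
          rw [Nat.le_div_iff_mul_le hpos, mul_comm]
          exact h5
        rw [mem_Icc]
        omega
      have h4 := card_le_card hsub
      rw [Int.card_Icc] at h4
      have h5 : (((Δ / h.natAbs : ℕ) : ℤ) + 1 - -((Δ / h.natAbs : ℕ) : ℤ)).toNat =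
          2 * (Δ / h.natAbs) + 1 := by omega
      rw [h5] at h4
      have h6 : (((Icc (-(n : ℤ)) n).filter (fun k => |h * k| ≤ (Δ : ℤ))).card : ℝ) ≤
          2 * ((Δ / h.natAbs : ℕ) : ℝ) + 1 := by exact_mod_cast h4
      have h7 : ((Δ / h.natAbs : ℕ) : ℝ) ≤ (Δ : ℝ) / h.natAbs := Nat.cast_div_le
      calc _ ≤ 2 * ((Δ / h.natAbs : ℕ) : ℝ) + 1 := h6
        _ ≤ 2 * ((Δ : ℝ) / h.natAbs) + 1 := by linarith
        _ = _ := by ring
  have h4 := sum_natAbs (fun j => if j = 0 then (4 * M + 1 : ℝ) else 2 * Δ * (1 / (j : ℝ)) + 1) n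
  have h5 : ∑ j ∈ Icc 1 n, (if j = 0 then (4 * M + 1 : ℝ) else 2 * Δ * (1 / (j : ℝ)) + 1) =
      2 * Δ * (∑ j ∈ Icc 1 n, (1 / (j : ℝ))) + n := by
    rw [mul_sum]
    have : (n : ℝ) = ∑ j ∈ Icc 1 n, (1 : ℝ) := by simp
    rw [this, ← sum_add_distrib]
    apply sum_congr rfl
    intro j hj
    rw [mem_Icc] at hj
    rw [if_neg (by omega)]
  have h6 : ∑ j ∈ Icc 1 n, (1 / (j : ℝ)) ≤ 1 + Real.log n := by
    have h2 := harmonic_le_one_add_log n
    rw [harmonic_eq_sum_Icc] at h2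
    push_cast at h2
    simp_rw [one_div]
    exact h2
  have hlog2 : (0.69 : ℝ) ≤ Real.log 2 := by
    have := Real.log_two_gt_d9
    linarith
  have hlogM : Real.log 2 ≤ Real.log M := Real.log_le_log (by norm_num) hMr
  have hlogn : Real.log n = Real.log 2 + Real.log M := by
    rw [hn]
    push_cast
    exact Real.log_mul (by norm_num) (by positivity)
  have h7 : 1 + Real.log n ≤ 4 * Real.log M := by
    rw [hlogn]
    linarith
  have hΔ : (0 : ℝ) ≤ Δ := Nat.cast_nonneg _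
  have h8 : 2 * (Δ : ℝ) * (∑ j ∈ Icc 1 n, (1 / (j : ℝ))) ≤ 2 * Δ * (4 * Real.log M) :=
    mul_le_mul_of_nonneg_left (h6.trans h7) (by positivity)
  have h9 : (n : ℝ) = 2 * M := by rw [hn]; push_cast; ring
  calc (((Icc (-(M : ℤ)) M ×ˢ Icc (-(M : ℤ)) M).filter
      (fun p : ℤ × ℤ => |p.1 ^ 2 - p.2 ^ 2| ≤ (Δ : ℤ))).card : ℝ) ≤ (T.card : ℝ) := by
        exact_mod_cast h1
    _ = _ := h2
    _ ≤ _ := sum_le_sum h3
    _ = _ := h4
    _ ≤ 16 * (Δ * Real.log M + M) := by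
      rw [h5, if_pos rfl]
      have h10 : 0 ≤ (Δ : ℝ) * Real.log M := mul_nonneg hΔ (by linarith)
      nlinarith

end Pool.Agent.D0H81.GF
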